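import Mathlib
import Pool.Agent.helper25.Polar.Polarize
import Pool.Agent.helper25.Polar.Approx
import Pool.Agent.helper25.Polar.Arc

/-!
# The reflection inequality for the modulus of joining curve families

For compact sets `E` in the open upper half space and `F` in the open lower half space of `ℝⁿ`,
`n ≥ 2`, we prove `M(Δ(E, F)) ≤ M(Δ(E, F*))`, where `F*` is the reflection of `F` in the
hyperplane `xₙ = 0`.

The proof is by polarization (two-point rearrangement) of a potential, carried out directly with
the definition of the modulus: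

* a metric admissible for `Δ(E, F*)` is replaced by a bounded continuous one `g`, up to a small
  error in the energy and in the admissibility constant (`exists_continuous_metric`; this uses the
  Vitali-Caratheodory theorem, inf-convolutions, a barrier at infinity and the Arzela-Ascoli
  theorem);
* with `u x` the `g`-distance of `x` from `E`, the values of `g` at `x` and at its mirror image are
  interchanged where `xₙ * (u (r x) - u x) < 0`; this does not change the energy
  (`lintegral_polMetric`) and gives a metric admissible for `Δ(E, F)` (`polarized_action`).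
-/

open MeasureTheory Set Filter Topology
open scoped ENNReal NNReal

namespace Pool.Agent.Results.MP_69cc0b_an.ReflectionInequality

open Pool.Agent.helper25.Polar

/-- A curve in the extended space `ℝⁿ ∪ {∞}`: a continuous map defined on a compact interval
`[a, b]`. (Only the values of `toFun` on `[a, b]` matter.) -/
structure Curve (n : ℕ) where
  /-- left end point of the parameter interval -/
  a : ℝ
  /-- right end point of the parameter interval -/
  b : ℝ
  le : a ≤ b
  /-- the map -/
  toFun : ℝ → OnePoint (EuclideanSpace ℝ (Fin n))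
  continuousOn : ContinuousOn toFun (Icc a b)

/-- The family `Δ(A, B)` of all curves in `ℝⁿ ∪ {∞}` joining `A` and `B`. -/
def joining {n : ℕ} (A B : Set (OnePoint (EuclideanSpace ℝ (Fin n)))) : Set (Curve n) :=
  {γ | γ.toFun γ.a ∈ A ∧ γ.toFun γ.b ∈ B}

/-- `c` is the expression of `γ` as a locally rectifiable curve in `ℝⁿ`: the curve `γ` lies in
`ℝⁿ`, is given there by `c`, and has locally bounded variation (on a compact parameter interval
this means that its length is finite). -/
def Curve.IsRectifiable {n : ℕ} (γ : Curve n) (c : ℝ → EuclideanSpace ℝ (Fin n)) : Prop :=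
  (∀ t ∈ Icc γ.a γ.b, γ.toFun t = (c t : OnePoint (EuclideanSpace ℝ (Fin n)))) ∧
    LocallyBoundedVariationOn c (Icc γ.a γ.b)

/-- The integral `∫_γ ρ ds` of `ρ` with respect to arc length along the curve `c : [a, b] → ℝⁿ`:
the integral of `ρ` along the arc-length parametrization, over `[0, length of c]`. -/
noncomputable def lineIntegral {n : ℕ} (ρ : EuclideanSpace ℝ (Fin n) → ℝ≥0∞)
    (c : ℝ → EuclideanSpace ℝ (Fin n)) (a b : ℝ) : ℝ≥0∞ :=
  ∫⁻ s in Icc 0 (eVariationOn c (Icc a b)).toReal, ρ (naturalParameterization c (Icc a b) a s)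

/-- `ρ` is admissible for the curve family `Γ`: it is Borel with values in `[0, ∞]` and
`∫_γ ρ ds ≥ 1` for every locally rectifiable `γ ∈ Γ`. -/
def Admissible {n : ℕ} (Γ : Set (Curve n)) (ρ : EuclideanSpace ℝ (Fin n) → ℝ≥0∞) : Prop :=
  Measurable ρ ∧ ∀ γ ∈ Γ, ∀ c : ℝ → EuclideanSpace ℝ (Fin n), γ.IsRectifiable c →
    1 ≤ lineIntegral ρ c γ.a γ.b

/-- The `n`-modulus `M(Γ) = inf ∫ ρⁿ dm` over the admissible `ρ`. -/
noncomputable def modulus {n : ℕ} (Γ : Set (Curve n)) : ℝ≥0∞ :=
  ⨅ (ρ : EuclideanSpace ℝ (Fin n) → ℝ≥0∞) (_ : Admissible Γ ρ), ∫⁻ x, ρ x ^ n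

/-- The reflection `(x₁, …, xₙ₋₁, xₙ) ↦ (x₁, …, xₙ₋₁, -xₙ)`. -/
noncomputable def reflect {n : ℕ} (x : EuclideanSpace ℝ (Fin n)) : EuclideanSpace ℝ (Fin n) :=
  WithLp.toLp 2 fun i => if (i : ℕ) = n - 1 then - x i else x i

/-- The reflection as a linear isometric equivalence. -/
noncomputable def reflectIso (n : ℕ) :
    EuclideanSpace ℝ (Fin n) ≃ₗᵢ[ℝ] EuclideanSpace ℝ (Fin n) :=
  LinearIsometryEquiv.piLpCongrRight 2 fun i : Fin n =>
    if (i : ℕ) = n - 1 then LinearIsometryEquiv.neg ℝ else LinearIsometryEquiv.refl ℝ ℝ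

lemma reflectIso_apply {n : ℕ} (x : EuclideanSpace ℝ (Fin n)) : reflectIso n x = reflect x := by
  ext i
  simp only [reflectIso, reflect, LinearIsometryEquiv.piLpCongrRight_apply]
  split_ifs <;> simp

lemma reflect_coe (n : ℕ) :
    (reflect : EuclideanSpace ℝ (Fin n) → EuclideanSpace ℝ (Fin n)) = reflectIso n := by
  funext x
  exact (reflectIso_apply x).symm

lemma reflect_apply {n : ℕ} (x : EuclideanSpace ℝ (Fin n)) (i : Fin n) :
    reflect x i = if (i : ℕ) = n - 1 then - x i else x i := rfl

lemma reflect_reflect {n : ℕ} (x : EuclideanSpace ℝ (Fin n)) : reflect (reflect x) = x := by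
  ext i
  rw [reflect_apply, reflect_apply]
  split_ifs <;> simp

/-- **Reflection inequality for the modulus.** -/
theorem result (n : ℕ) (hn : 2 ≤ n) (E F : Set (EuclideanSpace ℝ (Fin n)))
    (hE : IsCompact E) (hF : IsCompact F)
    (hEpos : ∀ x ∈ E, 0 < x ⟨n - 1, by omega⟩) (hFneg : ∀ x ∈ F, x ⟨n - 1, by omega⟩ < 0) :
    modulus (joining (OnePoint.some '' E) (OnePoint.some '' F)) ≤
      modulus (joining (OnePoint.some '' E) (OnePoint.some '' (reflect '' F))) := by
  let last : Fin n := ⟨n - 1, by omega⟩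
  let l : EuclideanSpace ℝ (Fin n) → ℝ := fun x => x last
  have hl : Continuous l := by fun_prop
  have hrcont : Continuous (reflect : EuclideanSpace ℝ (Fin n) → EuclideanSpace ℝ (Fin n)) := by
    rw [reflect_coe]; exact (reflectIso n).continuous
  have hrlip : LipschitzWith 1 (reflect : EuclideanSpace ℝ (Fin n) → EuclideanSpace ℝ (Fin n)) := by
    rw [reflect_coe]; exact (reflectIso n).lipschitz
  have hrmp : MeasurePreserving (reflect : EuclideanSpace ℝ (Fin n) → EuclideanSpace ℝ (Fin n)) volume volume := by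
    rw [reflect_coe]; exact (reflectIso n).measurePreserving
  have hlr : ∀ x : EuclideanSpace ℝ (Fin n), l (reflect x) = - l x := by
    intro x
    simp only [l, reflect_apply, last, if_true]
  have hfix : ∀ x : EuclideanSpace ℝ (Fin n), l x = 0 → reflect x = x := by
    intro x hx
    ext i
    rw [reflect_apply]
    split_ifs with h
    · have : i = last := Fin.ext h
      subst this
      simp only [l] at hx
      rw [hx]; simp
    · rfl
  apply le_iInf₂
  intro ρ hρ
  obtain ⟨hρm, hρadm⟩ := hρ
  by_cases hfin : ∫⁻ x, ρ x ^ n = ∞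
  · rw [hfin]; exact le_top
  -- admissibility along `1`-Lipschitz paths
  have hadm : ∀ T : ℝ, 0 ≤ T → ∀ c : ℝ → EuclideanSpace ℝ (Fin n), LipschitzWith 1 c → c 0 ∈ E →
      c T ∈ reflect '' F → 1 ≤ ∫⁻ t in Icc 0 T, ρ (c t) := by
    intro T hT c hc h0 hTF
    have h1 := hρadm ⟨0, T, hT, fun t => (c t : OnePoint (EuclideanSpace ℝ (Fin n))),
      (OnePoint.continuous_coe.comp hc.continuous).continuousOn⟩
      ⟨⟨c 0, h0, rfl⟩, ⟨c T, hTF, rfl⟩⟩ c ⟨fun t _ => rfl, ?_⟩
    · exact h1.trans (arclength_integral_le hc hT hρm)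
    · have := (hc.lipschitzOnWith (s := univ)).comp_locallyBoundedVariationOn
        (g := (id : ℝ → ℝ)) (s := Icc 0 T) (fun _ _ => mem_univ _)
        (monotone_id.monotoneOn _).locallyBoundedVariationOn
      exact this
  have hrF : IsCompact (reflect '' F) := hF.image hrcont
  -- the estimate for each `δ`
  have main : ∀ δ : ℝ, 0 < δ → δ < 1 → modulus (joining (OnePoint.some '' E) (OnePoint.some '' F)) ≤
      ENNReal.ofReal ((1 - δ)⁻¹) ^ n * ((∫⁻ x, ρ x ^ n) + ENNReal.ofReal δ) := by
    intro δ hδ hδ1
    obtain ⟨g, hg, hg0, ⟨M, hM⟩, hgint, hgact⟩ :=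
      exists_continuous_metric hn hE hrF hρm hfin hadm hδ hδ1
    have hδ' : 0 < 1 - δ := by linarith
    rcases E.eq_empty_or_nonempty with hEe | hEne
    · -- no curves at all
      have h0 : Admissible (joining (OnePoint.some '' E) (OnePoint.some '' F))
          (fun _ : EuclideanSpace ℝ (Fin n) => (0:ℝ≥0∞)) := by
        refine ⟨measurable_const, ?_⟩
        rintro γ ⟨⟨x, hx, -⟩, -⟩
        rw [hEe] at hx
        exact absurd hx (notMem_empty _)
      refine (iInf₂_le _ h0).trans ?_
      simp [show n ≠ 0 by omega]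
    set u := pot g E with hu
    have huc : Continuous u := (pot_lipschitz hg hg0 hEne hM).continuous
    set ρ' : EuclideanSpace ℝ (Fin n) → ℝ≥0∞ := fun x => ENNReal.ofReal ((1 - δ)⁻¹ * polMetric g reflect l u x) with hρ'
    have hgr : Continuous fun x => g (reflect x) := hg.comp hrcont
    have hkeep : IsClosed (keepSet reflect l u) :=
      isClosed_le continuous_const (hl.mul ((huc.comp hrcont).sub huc))
    have hpm : Measurable (polMetric g reflect l u) := by
      unfold polMetric
      exact Measurable.ite hkeep.measurableSet hg.measurable hgr.measurable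
    have hp0 : ∀ x, 0 ≤ polMetric g reflect l u x := by
      intro x; unfold polMetric; split_ifs <;> exact hg0 _
    have hpb : ∀ x, polMetric g reflect l u x ≤ M := by
      intro x; unfold polMetric; split_ifs <;> exact hM _
    have hρ'adm : Admissible (joining (OnePoint.some '' E) (OnePoint.some '' F)) ρ' := by
      refine ⟨(hpm.const_mul _).ennreal_ofReal, ?_⟩
      rintro γ ⟨⟨x, hxE, hx⟩, ⟨y, hyF, hy⟩⟩ c ⟨hlift, hbv⟩
      have hab := γ.le
      have hca : c γ.a = x := by
        have := hlift γ.a (left_mem_Icc.2 hab)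
        rw [← hx] at this
        exact (OnePoint.coe_injective this).symm
      have hcb : c γ.b = y := by
        have := hlift γ.b (right_mem_Icc.2 hab)
        rw [← hy] at this
        exact (OnePoint.coe_injective this).symm
      have hcc : ContinuousOn c (Icc γ.a γ.b) := by
        have h1 : ContinuousOn ((↑) ∘ c : ℝ → OnePoint (EuclideanSpace ℝ (Fin n))) (Icc γ.a γ.b) := by
          apply γ.continuousOn.congr
          intro t ht
          exact (hlift t ht).symm
        exact (OnePoint.isOpenEmbedding_coe.isInducing.continuousOn_iff).2 h1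
      obtain ⟨d, hd, hd0, hdL, hdN, -⟩ := exists_arclength hab hcc hbv
      set L := (eVariationOn c (Icc γ.a γ.b)).toReal with hL
      have hL0 : 0 ≤ L := ENNReal.toReal_nonneg
      have hm : 1 - δ ≤ pot g E (reflect (d L)) := by
        apply le_pot hEne
        intro T hT e he he0 heT
        apply hgact T hT e he he0
        rw [heT, hdL, hcb]
        exact ⟨y, hyF, rfl⟩
      have hkey := polarized_action (r := reflect) (l := l) (E := E) hg hg0 hM hrlip hl hfix hd hL0
        (by rw [hd0, hca]; exact hxE) (by rw [hd0, hca]; exact hEpos x hxE)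
        (by rw [hdL, hcb]; exact hFneg y hyF) hm
      have hint : IntegrableOn (fun t => polMetric g reflect l u (d t)) (Icc 0 L) volume := by
        apply Measure.integrableOn_of_bounded (M := (M:ℝ))
        · simp
        · exact (hpm.comp hd.continuous.measurable).aestronglyMeasurable
        · filter_upwards with t
          rw [Real.norm_of_nonneg (hp0 _)]
          exact hpb _
      have e1 : lineIntegral ρ' c γ.a γ.b =
          ENNReal.ofReal ((1 - δ)⁻¹ * ∫ t in (0:ℝ)..L, polMetric g reflect l u (d t)) := by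
        calc lineIntegral ρ' c γ.a γ.b = ∫⁻ s in Icc 0 L, ρ' (d s) := by
              unfold lineIntegral
              apply setLIntegral_congr_fun measurableSet_Icc
              intro s hs
              simp only [hdN s hs]
          _ = ENNReal.ofReal (∫ s in Icc 0 L, (1 - δ)⁻¹ * polMetric g reflect l u (d s)) := by
              rw [ofReal_integral_eq_lintegral_ofReal]
              · exact hint.const_mul _
              · filter_upwards with t
                exact mul_nonneg (inv_nonneg.2 hδ'.le) (hp0 _)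
          _ = _ := by
              rw [integral_const_mul, intervalIntegral.integral_of_le hL0,
                integral_Icc_eq_integral_Ioc]
      rw [e1, ← ENNReal.ofReal_one]
      apply ENNReal.ofReal_le_ofReal
      calc (1:ℝ) = (1 - δ)⁻¹ * (1 - δ) := (inv_mul_cancel₀ hδ'.ne').symm
        _ ≤ _ := by gcongr
    calc modulus (joining (OnePoint.some '' E) (OnePoint.some '' F)) ≤ ∫⁻ x, ρ' x ^ n := iInf₂_le ρ' hρ'adm
      _ = ∫⁻ x, ENNReal.ofReal ((1 - δ)⁻¹) ^ n *
            ENNReal.ofReal (polMetric g reflect l u x) ^ n := by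
          congr 1; ext x
          simp only [hρ']
          rw [ENNReal.ofReal_mul (inv_nonneg.2 hδ'.le), mul_pow]
      _ = ENNReal.ofReal ((1 - δ)⁻¹) ^ n *
            ∫⁻ x, ENNReal.ofReal (polMetric g reflect l u x) ^ n := by
          rw [lintegral_const_mul _ (hpm.ennreal_ofReal.pow_const n)]
      _ = ENNReal.ofReal ((1 - δ)⁻¹) ^ n * ∫⁻ x, ENNReal.ofReal (g x) ^ n := by
          congr 1
          exact lintegral_polMetric (φ := fun t => ENNReal.ofReal t ^ n) huc hg hrcont hrmp
            reflect_reflect hl hlr (ENNReal.measurable_ofReal.pow_const n)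
      _ ≤ ENNReal.ofReal ((1 - δ)⁻¹) ^ n * ((∫⁻ x, ρ x ^ n) + ENNReal.ofReal δ) := by gcongr
  -- let `δ → 0`
  have hlim : Tendsto (fun δ : ℝ => ENNReal.ofReal ((1 - δ)⁻¹) ^ n *
      ((∫⁻ x, ρ x ^ n) + ENNReal.ofReal δ)) (𝓝[>] 0) (𝓝 (∫⁻ x, ρ x ^ n)) := by
    have h1 : Tendsto (fun δ : ℝ => ENNReal.ofReal ((1 - δ)⁻¹) ^ n) (𝓝[>] 0) (𝓝 1) := by
      have h2 : Tendsto (fun δ : ℝ => (1 - δ)⁻¹) (𝓝[>] 0) (𝓝 1) := by
        have h3 : ContinuousAt (fun δ : ℝ => (1 - δ)⁻¹) 0 := by
          apply ContinuousAt.inv₀ (by fun_prop)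
          norm_num
        have h4 := h3.tendsto.mono_left (nhdsWithin_le_nhds (s := Ioi (0:ℝ)))
        simpa using h4
      have h5 := ENNReal.Tendsto.pow (n := n) ((ENNReal.continuous_ofReal.tendsto _).comp h2)
      simpa using h5
    have h6 : Tendsto (fun δ : ℝ => (∫⁻ x, ρ x ^ n) + ENNReal.ofReal δ) (𝓝[>] 0)
        (𝓝 (∫⁻ x, ρ x ^ n)) := by
      have h7 : Tendsto (fun δ : ℝ => (∫⁻ x, ρ x ^ n) + ENNReal.ofReal δ) (𝓝[>] 0)
          (𝓝 ((∫⁻ x, ρ x ^ n) + ENNReal.ofReal 0)) :=
        tendsto_const_nhds.add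
          ((ENNReal.continuous_ofReal.tendsto 0).mono_left nhdsWithin_le_nhds)
      simpa using h7
    have h8 := ENNReal.Tendsto.mul h1 (Or.inl one_ne_zero) h6 (Or.inr ENNReal.one_ne_top)
    simpa using h8
  apply ge_of_tendsto hlim
  have hmem : Ioo (0:ℝ) 1 ∈ 𝓝[>] (0:ℝ) := Ioo_mem_nhdsGT one_pos
  filter_upwards [hmem] with δ hδ
  exact main δ hδ.1 hδ.2

end Pool.Agent.Results.MP_69cc0b_an.ReflectionInequality
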